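import Pool.Agent.N13.SV.Colour

/-!
Order complexes and barycentric subdivisions.
-/

set_option autoImplicit false

open scoped Classical

namespace Pool.Agent.N13.SV

open Pool.Agent.W907.SG (W cox)
open Pool.Agent.Q134.SV

/-- pull-back of a detecting cocycle along a simplicial map -/
theorem det_of_push {n : ℕ} {V V₀ : Type} [Fintype V] [Fintype V₀] {G : SimpleGraph V}
    {G₀ : SimpleGraph V₀} (f : V → V₀) (hf : ∀ x y, G.Adj x y → f x = f y ∨ G₀.Adj (f x) (f y))
    {a : (Fin n → V) → ℝ} (h : Det n G₀ (push f a)) : Det n G a := by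
  obtain ⟨c, hc, hp⟩ := h
  let φ : W G →* W G₀ := lft G (fun x => gen G₀ (f x)) (fun x => gen_sq _ _)
    (fun x y hxy => by
      rcases hf x y hxy with h | h
      · rw [h]
      · exact gen_comm _ h)
  have hφ : ∀ x, φ (gen G x) = gen G₀ (f x) := fun x => lft_gen _ _ _ _ _
  refine ⟨fun w => c (fun i => φ (w i)), ⟨?_, ?_, ?_, ?_⟩, ?_⟩
  · intro x w
    simp only [map_mul, hφ]
    exact hc.gen _ _
  · intro w
    exact hc.coc fun i => φ (w i)
  · obtain ⟨C, hC⟩ := hc.bdd
    exact ⟨C, fun w => hC _⟩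
  · intro w i hi
    exact hc.nrm _ i (congrArg φ hi)
  · rw [pair_push] at hp
    convert hp using 1
    unfold pair
    refine Finset.sum_congr rfl fun v _ => ?_
    congr 1
    change c (fun i => φ (Fin.partialProd (gen G ∘ v) i)) = _
    congr 1
    funext i
    refine Fin.induction ?_ (fun j hj => ?_) i
    · rw [Fin.partialProd_zero, Fin.partialProd_zero, map_one]
    · rw [Fin.partialProd_succ, Fin.partialProd_succ, map_mul, hj]
      congr 1

/-- a detected cycle gives positive simplicial volume -/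
theorem Det.not_zeroSV {m : ℕ} {V : Type} [Fintype V] {G : SimpleGraph V}
    {a : (Fin (m + 1) → V) → ℝ} (h : Det (m + 1) G a) (ha : IsCyc (m + 1) G a)
    (H : Subgroup (W G)) (hH : H.index ≠ 0) (hε : H ≤ (par G).ker) : ¬ ZeroSV (m + 1) H := by
  obtain ⟨c, hc, hp⟩ := h
  exact Pool.Agent.Q134.SV.not_zeroSV ha hc hp H hH hε

/-- the comparability graph of a poset; its flag complex is the order complex -/
def ordG (P : Type) [PartialOrder P] : SimpleGraph P where
  Adj x y := x < y ∨ y < x
  symm := ⟨fun _ _ h => h.symm⟩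
  loopless := ⟨fun x h => h.elim (lt_irrefl x) (lt_irrefl x)⟩

/-- order complexes -/
theorem det_order (d : ℕ) (P : Type) [Fintype P] [PartialOrder P] (rk : P → ℕ)
    (hrk : StrictMono rk) (hd : ∀ x, rk x < 2 * d)
    (hsq : ∀ x x' y y' : P, Even (rk x) → rk x' = rk x → rk y = rk x + 1 → rk y' = rk x + 1 →
      x < y → x < y' → x' < y → x' < y' → x = x' ∨ y = y')
    (a : (Fin (2 * d) → P) → ℝ) (ha : IsCyc (2 * d) (ordG P) a) (hne : a ≠ 0) :
    Det (2 * d) (ordG P) a := by
  obtain ⟨v, hv⟩ := Function.ne_iff.1 hne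
  -- adjacent elements of the same colour
  have key : ∀ x y : P, (ordG P).Adj x y → rk x / 2 = rk y / 2 →
      (x < y ∧ Even (rk x) ∧ rk y = rk x + 1) ∨ (y < x ∧ Even (rk y) ∧ rk x = rk y + 1) := by
    intro x y h he
    rcases h with h | h
    · have h1 := hrk h
      refine Or.inl ⟨h, ?_, by omega⟩
      rw [Nat.even_iff]
      omega
    · have h1 := hrk h
      refine Or.inr ⟨h, ?_, by omega⟩
      rw [Nat.even_iff]
      omega
  refine det_colour d P (ordG P) (fun x => rk x / 2) (fun x => ?_) ?_ a ha v hv ?_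
  · have := hd x
    show rk x / 2 < d
    omega
  · rintro x y z h1 h2 h3 ⟨h4, h5⟩
    have h6 : rk x / 2 = rk z / 2 := h4.trans h5
    have e1 := key x y h1 h4
    have e2 := key y z h2 h5
    have e3 := key x z h3 h6
    simp only [Nat.even_iff] at e1 e2 e3
    omega
  · intro i j x y h1 h2 h3 h4 h5 h6 h7
    have h8 : rk y / 2 = rk (v i) / 2 := (h5.trans (h6.trans h7)).symm
    have e1 := key _ _ h1 h5
    have e2 := key _ _ h2 h6
    have e3 := key _ _ h3 h7
    have e4 := key _ _ h4 h8
    rcases e1 with ⟨l1, p1, r1⟩ | ⟨l1, p1, r1⟩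
    · -- `v i < v j > x < y > v i`
      have p1' := Nat.even_iff.1 p1
      rcases e2 with ⟨l2, p2, r2⟩ | ⟨l2, p2, r2⟩
      · rw [Nat.even_iff] at p2; omega
      · rcases e3 with ⟨l3, p3, r3⟩ | ⟨l3, p3, r3⟩
        · rcases e4 with ⟨l4, p4, r4⟩ | ⟨l4, p4, r4⟩
          · rw [Nat.even_iff] at p4 p3; omega
          · rcases hsq (v i) x (v j) y p1 (by omega) r1 (by omega) l1 l4 l2 l3 with h | h
            · exact Or.inl h.symm
            · exact Or.inr h.symm
        · rw [Nat.even_iff] at p3 p2; omega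
    · -- `v i > v j < x > y < v i`
      have p1' := Nat.even_iff.1 p1
      rcases e2 with ⟨l2, p2, r2⟩ | ⟨l2, p2, r2⟩
      · rcases e3 with ⟨l3, p3, r3⟩ | ⟨l3, p3, r3⟩
        · rw [Nat.even_iff] at p3 p2; omega
        · rcases e4 with ⟨l4, p4, r4⟩ | ⟨l4, p4, r4⟩
          · rcases hsq (v j) y (v i) x p1 (by omega) r1 (by omega) l1 l2 l4 l3 with h | h
            · exact Or.inr h.symm
            · exact Or.inl h.symm
          · rw [Nat.even_iff] at p4 p3; omega
      · rw [Nat.even_iff] at p2; omega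

/-- barycentric subdivisions of simplicial complexes -/
theorem det_bary (d N : ℕ) (K : Finset (Finset (Fin N)))
    (hK : ∀ σ ∈ K, σ.Nonempty ∧ σ.card ≤ 2 * d)
    (a : (Fin (2 * d) → K) → ℝ) (ha : IsCyc (2 * d) (ordG K) a) (hne : a ≠ 0) :
    Det (2 * d) (ordG K) a := by
  refine det_order d K (fun σ => (σ : Finset (Fin N)).card - 1) ?_ ?_ ?_ a ha hne
  · intro σ τ h
    have h1 : (σ : Finset (Fin N)).card < (τ : Finset (Fin N)).card := Finset.card_lt_card h
    have h2 := Finset.card_pos.2 (hK σ σ.2).1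
    show _ - 1 < _ - 1
    omega
  · intro σ
    have h1 := (hK σ σ.2).2
    have h2 := Finset.card_pos.2 (hK σ σ.2).1
    show _ - 1 < _
    omega
  · intro x x' y y' _ h1 h2 h3 l1 l2 l3 l4
    by_contra hcon
    push Not at hcon
    have c1 := Finset.card_pos.2 (hK x x.2).1
    have c2 := Finset.card_pos.2 (hK x' x'.2).1
    have c3 := Finset.card_pos.2 (hK y y.2).1
    have c4 := Finset.card_pos.2 (hK y' y'.2).1
    change (x' : Finset (Fin N)).card - 1 = (x : Finset (Fin N)).card - 1 at h1
    change (y : Finset (Fin N)).card - 1 = (x : Finset (Fin N)).card - 1 + 1 at h2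
    change (y' : Finset (Fin N)).card - 1 = (x : Finset (Fin N)).card - 1 + 1 at h3
    have s1 : (x : Finset (Fin N)) ⊆ y := l1.le
    have s2 : (x : Finset (Fin N)) ⊆ y' := l2.le
    have s3 : (x' : Finset (Fin N)) ⊆ y := l3.le
    have s4 : (x' : Finset (Fin N)) ⊆ y' := l4.le
    have hlt : (x : Finset (Fin N)) ⊂ (x : Finset (Fin N)) ∪ x' := by
      refine Finset.ssubset_iff_subset_ne.2 ⟨Finset.subset_union_left, fun h => ?_⟩
      apply hcon.1
      apply Subtype.ext
      have h5 : (x' : Finset (Fin N)) ⊆ x := by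
        rw [h]
        exact Finset.subset_union_right
      exact (Finset.eq_of_subset_of_card_le h5 (by omega)).symm
    have h6 := Finset.card_lt_card hlt
    have h7 : (x : Finset (Fin N)) ∪ x' = y :=
      Finset.eq_of_subset_of_card_le (Finset.union_subset s1 s3) (by omega)
    have h8 : (x : Finset (Fin N)) ∪ x' = y' :=
      Finset.eq_of_subset_of_card_le (Finset.union_subset s2 s4) (by omega)
    exact hcon.2 (Subtype.ext (h7.symm.trans h8))

end Pool.Agent.N13.SV
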