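import Pool.Agent.Q134.SV.Cls

/-!
Detection of cycles of flag complexes whose vertices are coloured such that the colour classes are
triangle-free.
-/

set_option autoImplicit false

open scoped Classical

namespace Pool.Agent.N13.SV

open Pool.Agent.W907.SG (W cox)
open Pool.Agent.Q134.SV

variable {V : Type} [Fintype V] {G : SimpleGraph V}

/-- The real `(n-1)`-chain `a` of the flag complex of `G` is detected by a bounded `n`-cocycle of `W G`
with coefficients in the orientation character. -/
def Det (n : ℕ) {V : Type} [Fintype V] (G : SimpleGraph V) (a : (Fin n → V) → ℝ) : Prop :=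
  ∃ c, Good G n c ∧ pair (gen G) a c ≠ 0

/-- the map of the complement of `K` to the pentagon which is defined by the edge `s t` -/
noncomputable def pm (G : SimpleGraph V) (K : Set V) (s t : V) (x : V) : Option (Fin 5) :=
  if x ∈ K then none
  else if x = s then some 0 else if x = t then some 1
  else if G.Adj t x then some 2 else if G.Adj s x then some 4 else some 3

omit [Fintype V] in
lemma pm_none (K : Set V) (s t x : V) : pm G K s t x = none ↔ x ∈ K := by
  unfold pm
  split_ifs <;> simp_all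

omit [Fintype V] in
lemma pm_s {K : Set V} {s t : V} (hs : s ∉ K) (x : V) : pm G K s t x = some 0 ↔ x = s := by
  unfold pm
  constructor
  · intro h
    split_ifs at h <;> simp_all
  · rintro rfl
    rw [if_neg hs, if_pos rfl]

omit [Fintype V] in
lemma pm_t {K : Set V} {s t : V} (ht : t ∉ K) (hst : G.Adj s t) (x : V) :
    pm G K s t x = some 1 ↔ x = t := by
  unfold pm
  constructor
  · intro h
    split_ifs at h <;> simp_all
  · rintro rfl
    rw [if_neg ht, if_neg hst.ne', if_pos rfl]

omit [Fintype V] in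
theorem pm_map {K : Set V} {s t : V} (hlk : ∀ x, G.Adj s x → G.Adj t x → x ∈ K)
    (hsq : ∀ x y, x ∉ K → y ∉ K → G.Adj t x → G.Adj x y → G.Adj y s → x = s ∨ y = t) :
    PentMap G K (pm G K s t) := by
  refine ⟨pm_none K s t, ?_⟩
  have key : ∀ x i, pm G K s t x = some i → x ∉ K ∧ (
      (i = 0 ∧ x = s) ∨ (i = 1 ∧ x = t) ∨ (i = 2 ∧ x ≠ s ∧ x ≠ t ∧ G.Adj t x ∧ ¬ G.Adj s x) ∨
        (i = 4 ∧ x ≠ s ∧ x ≠ t ∧ G.Adj s x ∧ ¬ G.Adj t x) ∨
        (i = 3 ∧ x ≠ s ∧ x ≠ t ∧ ¬ G.Adj s x ∧ ¬ G.Adj t x)) := by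
    intro x i h
    unfold pm at h
    split_ifs at h with h1 h2 h3 h4 h5
    · exact ⟨h1, Or.inl ⟨(Option.some_injective _ h).symm, h2⟩⟩
    · exact ⟨h1, Or.inr (Or.inl ⟨(Option.some_injective _ h).symm, h3⟩)⟩
    · refine ⟨h1, Or.inr (Or.inr (Or.inl
        ⟨(Option.some_injective _ h).symm, h2, h3, h4, fun h' => ?_⟩))⟩
      exact h1 (hlk x h' h4)
    · exact ⟨h1, Or.inr (Or.inr (Or.inr (Or.inl
        ⟨(Option.some_injective _ h).symm, h2, h3, h5, h4⟩)))⟩
    · exact ⟨h1, Or.inr (Or.inr (Or.inr (Or.inr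
        ⟨(Option.some_injective _ h).symm, h2, h3, h5, h4⟩)))⟩
  intro x y hxy i j hx hy
  obtain ⟨xK, hx'⟩ := key x i hx
  obtain ⟨yK, hy'⟩ := key y j hy
  rcases hx' with ⟨rfl, rfl⟩ | ⟨rfl, rfl⟩ | ⟨rfl, x1, x2, x3, x4⟩ | ⟨rfl, x1, x2, x3, x4⟩ |
    ⟨rfl, x1, x2, x3, x4⟩ <;>
  rcases hy' with ⟨rfl, rfl⟩ | ⟨rfl, rfl⟩ | ⟨rfl, y1, y2, y3, y4⟩ | ⟨rfl, y1, y2, y3, y4⟩ |
    ⟨rfl, y1, y2, y3, y4⟩
  all_goals first
    | exact Or.inl (by decide)
    | exact Or.inr (Or.inl (by decide))
    | exact Or.inr (Or.inr (by decide))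
    | (exfalso; exact y4 hxy)
    | (exfalso; exact x4 hxy.symm)
    | (exfalso; exact y3 hxy)
    | (exfalso; exact x3 hxy.symm)
    | (exfalso; exact (hsq x y xK yK x3 hxy y3.symm).elim x1 y2)
    | (exfalso; exact (hsq y x yK xK y3 hxy.symm x3.symm).elim y1 x2)

/-- **Peeling**: a cycle is detected if its link at the edge `s t` is detected in the complement of a
set of vertices which contains `s` and `t` but no common neighbour of them, in which `s t` is not an
edge of a 4-cycle, and which contains two vertices of each simplex of the cycle. -/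
theorem det_peel {n : ℕ} {a : (Fin (n + 2) → V) → ℝ} (ha : IsCyc (n + 2) G a) (K : Set V) [Fintype K]
    {s t : V} (hs : s ∉ K) (ht : t ∉ K) (hst : G.Adj s t)
    (hlk : ∀ x, G.Adj s x → G.Adj t x → x ∈ K)
    (hsq : ∀ x y, x ∉ K → y ∉ K → G.Adj t x → G.Adj x y → G.Adj y s → x = s ∨ y = t)
    (hfree : ∀ v : Fin (n + 2) → V, a v ≠ 0 → ∃ j, j ≠ 1 ∧ v j ∉ K)
    (hd : Det n (G.induce K) (lnk a s t K)) : Det (n + 2) G a := by
  obtain ⟨c, hc, hp⟩ := hd
  have hg := pm_map hlk hsq
  refine ⟨cup hg c, good_cup hg hc, ?_⟩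
  rw [pair_cup hg ha (pm_s hs) (pm_t ht hst) ?_ hc]
  · exact mul_ne_zero (by norm_num) hp
  · intro u x hx y
    by_contra h0
    obtain ⟨j, hj, hjK⟩ := hfree _ h0
    revert hj hjK
    refine Fin.cases ?_ (fun j => Fin.cases ?_ (fun j => ?_) j) j
    · intro _ h
      exact h hx
    · intro h _
      exact h rfl
    · intro _ h
      exact h (u j).2

omit [Fintype V] in
lemma ne_perm {m : ℕ} {a : (Fin m → V) → ℝ}
    (alt : ∀ (v : Fin m → V) (i j : Fin m), i ≠ j → a (v ∘ Equiv.swap i j) = - a v)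
    (σ : Equiv.Perm (Fin m)) (v : Fin m → V) (hv : a v ≠ 0) : a (v ∘ σ) ≠ 0 := by
  revert v
  refine Equiv.Perm.swap_induction_on' (motive := fun σ => ∀ v : Fin m → V, a v ≠ 0 → a (v ∘ σ) ≠ 0)
    σ ?_ ?_
  · intro v hv
    simpa using hv
  · intro f x y hxy hf v hv
    have : v ∘ ⇑(f * Equiv.swap x y) = (v ∘ f) ∘ Equiv.swap x y := by
      funext i; simp
    rw [this, alt _ _ _ hxy]
    exact neg_ne_zero.2 (hf v hv)

omit [Fintype V] in
/-- two vertices of the last colour -/
lemma two_last {d : ℕ} (col : V → ℕ) (w : Fin (2 * (d + 1)) → V) (hw : ∀ i, col (w i) < d + 1)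
    (hadj : ∀ i j, i ≠ j → G.Adj (w i) (w j))
    (htri : ∀ x y z, G.Adj x y → G.Adj y z → G.Adj x z → ¬ (col x = col y ∧ col y = col z)) :
    ∃ i j, i ≠ j ∧ col (w i) = d ∧ col (w j) = d := by
  by_contra hcon
  push Not at hcon
  have h1 : ((Finset.univ : Finset (Fin (2 * (d + 1)))).filter fun i => col (w i) = d).card ≤ 1 := by
    rw [Finset.card_le_one]
    intro i hi j hj
    by_contra hij
    exact hcon i j hij (Finset.mem_filter.1 hi).2 (Finset.mem_filter.1 hj).2
  have h2 : ∀ k, ((Finset.univ : Finset (Fin (2 * (d + 1)))).filter fun i => col (w i) = k).card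
      ≤ 2 := by
    intro k
    by_contra hk
    push Not at hk
    obtain ⟨x, y, z, hx, hy, hz, hxy, hxz, hyz⟩ := Finset.two_lt_card_iff.1 hk
    have ex := (Finset.mem_filter.1 hx).2
    have ey := (Finset.mem_filter.1 hy).2
    have ez := (Finset.mem_filter.1 hz).2
    exact htri _ _ _ (hadj _ _ hxy) (hadj _ _ hyz) (hadj _ _ hxz) ⟨by rw [ex, ey], by rw [ey, ez]⟩
  have h3 : (Finset.univ : Finset (Fin (2 * (d + 1)))).card =
      ∑ k ∈ Finset.range (d + 1),
        ((Finset.univ : Finset (Fin (2 * (d + 1)))).filter fun i => col (w i) = k).card :=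
    Finset.card_eq_sum_card_fiberwise fun i _ => Finset.mem_coe.2 (Finset.mem_range.2 (hw i))
  rw [Finset.sum_range_succ, Finset.card_univ, Fintype.card_fin] at h3
  have h4 : ∑ k ∈ Finset.range d,
      ((Finset.univ : Finset (Fin (2 * (d + 1)))).filter fun i => col (w i) = k).card ≤ d * 2 := by
    calc _ ≤ ∑ _k ∈ Finset.range d, 2 := Finset.sum_le_sum fun k _ => h2 k
      _ = d * 2 := by simp
  omega

/-- The vertices are coloured by `d` colours, without monochromatic triangles; the cycle `a` of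
dimension `2 d - 1` does not vanish at a simplex `v` whose monochromatic edges are in no monochromatic
cycle of length four.  Then `a` is detected. -/
theorem det_colour : ∀ (d : ℕ) (V : Type) [Fintype V] (G : SimpleGraph V) (col : V → ℕ),
    (∀ x, col x < d) →
    (∀ x y z, G.Adj x y → G.Adj y z → G.Adj x z → ¬ (col x = col y ∧ col y = col z)) →
    ∀ a : (Fin (2 * d) → V) → ℝ, IsCyc (2 * d) G a → ∀ v : Fin (2 * d) → V, a v ≠ 0 →
    (∀ i j : Fin (2 * d), ∀ x y : V, G.Adj (v i) (v j) → G.Adj (v j) x → G.Adj x y →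
      G.Adj y (v i) → col (v i) = col (v j) → col (v j) = col x → col x = col y →
      x = v i ∨ y = v j) → Det (2 * d) G a
  | 0, V, _, G, col, hcol, _, a, _, v, hv, _ => by
    have hV : IsEmpty V := ⟨fun x => absurd (hcol x) (Nat.not_lt_zero _)⟩
    refine ⟨fun _ => 1, ⟨fun x => hV.elim x, ?_, ⟨1, fun _ => by simp⟩, fun _ i => i.elim0⟩, ?_⟩
    · intro g
      unfold cobd
      simp [Fin.sum_univ_two]
    · unfold pair
      intro h0
      apply hv
      have : (Finset.univ : Finset (Fin (2 * 0) → V)) = {v} := by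
        ext u
        rw [Finset.mem_singleton]
        exact ⟨fun _ => funext fun i => i.elim0, fun _ => Finset.mem_univ _⟩
      rw [this, Finset.sum_singleton, mul_one] at h0
      exact h0
  | d + 1, V, _, G, col, hcol, htri, a, ha, v, hv, hgood => by
    obtain ⟨i, j, hij, hi, hj⟩ := two_last col v (fun i => hcol _) (ha.supp v hv) htri
    -- the permutation
    have h10 : (1 : Fin (2 * d + 2)) ≠ 0 := by simp
    let σ : Equiv.Perm (Fin (2 * d + 2)) :=
      Equiv.swap 0 i * Equiv.swap 1 (Equiv.swap 0 i j)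
    have hj' : Equiv.swap 0 i j ≠ (0 : Fin (2 * d + 2)) := by
      intro h
      have h2 : Equiv.swap 0 i (Equiv.swap 0 i j) = Equiv.swap 0 i 0 := congrArg _ h
      rw [Equiv.swap_apply_self, Equiv.swap_apply_left] at h2
      exact hij h2.symm
    have σ0 : σ 0 = i := by
      change Equiv.swap 0 i (Equiv.swap 1 (Equiv.swap 0 i j) 0) = i
      rw [Equiv.swap_apply_of_ne_of_ne h10.symm hj'.symm, Equiv.swap_apply_left]
    have σ1 : σ 1 = j := by
      change Equiv.swap 0 i (Equiv.swap 1 (Equiv.swap 0 i j) 1) = j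
      rw [Equiv.swap_apply_left, Equiv.swap_apply_self]
    set w : Fin (2 * d + 2) → V := v ∘ σ with hwdef
    have hw : a w ≠ 0 := ne_perm ha.alt σ v hv
    have w0 : w 0 = v i := by rw [hwdef]; simp [σ0]
    have w1 : w 1 = v j := by rw [hwdef]; simp [σ1]
    set s := w 0 with hs
    set t := w 1 with ht
    have hst : G.Adj s t := ha.supp w hw 0 1 h10.symm
    have cs : col s = d := by rw [w0, hi]
    have ct : col t = d := by rw [w1, hj]
    let K : Set V := {x | col x < d}
    have hcd : ∀ x, x ∉ K → col x = d := by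
      intro x hx
      have h1 : ¬ col x < d := hx
      have h2 := hcol x
      omega
    have hκ : ∀ l : Fin (2 * d), w l.succ.succ ∈ K := by
      intro l
      by_contra hl
      have h1 := hcd _ hl
      refine htri s t (w l.succ.succ) hst (ha.supp w hw _ _ ?_) (ha.supp w hw _ _ ?_)
        ⟨by rw [cs, ct], by rw [ct, h1]⟩
      · intro h
        exact (Fin.succ_ne_zero l) (Fin.succ_injective _ h.symm)
      · exact (Fin.succ_ne_zero _).symm
    let κ : Fin (2 * d) → K := fun l => ⟨w l.succ.succ, hκ l⟩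
    have hwc : (Fin.cons s (Fin.cons t fun l => (κ l : V)) : Fin (2 * d + 2) → V) = w := by
      funext l
      refine Fin.cases ?_ (fun l => Fin.cases ?_ (fun l => ?_) l) l
      · rfl
      · rfl
      · rfl
    have hlk : ∀ x, G.Adj s x → G.Adj t x → x ∈ K := by
      intro x h1 h2
      by_contra h3
      exact htri s t x hst h2 h1 ⟨by rw [cs, ct], by rw [ct, hcd x h3]⟩
    refine det_peel (n := 2 * d) ha K (s := s) (t := t) (fun h => ?_) (fun h => ?_) hst hlk ?_ ?_ ?_
    · have : col s < d := h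
      omega
    · have : col t < d := h
      omega
    · intro x y hx hy h1 h2 h3
      have h4 := hgood i j x y (by rw [← w0, ← w1]; exact hst) (by rw [← w1]; exact h1) h2
        (by rw [← w0]; exact h3) (by rw [hi, hj]) (by rw [hj, hcd x hx]) (by rw [hcd x hx, hcd y hy])
      rw [← w0, ← w1] at h4
      exact h4
    · intro u hu
      obtain ⟨i', j', hij', hi', hj''⟩ := two_last col u (fun i => hcol _) (ha.supp u hu) htri
      by_cases h : i' = 1
      · refine ⟨j', fun h' => hij' (h.trans h'.symm), fun hK => ?_⟩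
        have : col (u j') < d := hK
        omega
      · refine ⟨i', h, fun hK => ?_⟩
        have : col (u i') < d := hK
        omega
    · refine det_colour d K (G.induce K) (fun x => col x) (fun x => x.2) ?_ _
        (isCyc_lnk ha s t K hlk) κ ?_ ?_
      · intro x y z h1 h2 h3
        exact htri x y z h1 h2 h3
      · intro h
        apply hw
        rw [← hwc]
        exact h
      · intro l m x y h1 h2 h3 h4 h5 h6 h7
        have e : ∀ l : Fin (2 * d), (κ l : V) = v (σ l.succ.succ) := fun l => rfl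
        have h8 := hgood (σ l.succ.succ) (σ m.succ.succ) x y (by rw [← e, ← e]; exact h1)
          (by rw [← e]; exact h2) h3 (by rw [← e]; exact h4) (by rw [← e, ← e]; exact h5)
          (by rw [← e]; exact h6) h7
        rcases h8 with h8 | h8
        · exact Or.inl (Subtype.ext (h8.trans (e l).symm))
        · exact Or.inr (Subtype.ext (h8.trans (e m).symm))

end Pool.Agent.N13.SV
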